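import Pool.Agent.Y139.SW.J

/-!
# The law of a stationary wave at a point (MP_4fa179_mp)

Every Benjamini-Schramm limit of Laplace eigenfunctions of a compact Riemannian manifold of
dimension `d`, rescaled to eigenvalue `1`, is the law of a stationary random field on `ℝ^d` with
smooth samples, `ΔF + F = 0` and `E F(0)² ≤ 1`. The theorem is about all such fields.
-/

set_option autoImplicit false
open MeasureTheory Filter Topology
open scoped ContDiff ENNReal

namespace Pool.Agent.Results.MP_4fa179_mp.StationaryWaves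

noncomputable section

/-- the Laplacian `∑ ∂_i²` of `ℝ^d` -/
def laplacian {d : ℕ} (f : EuclideanSpace ℝ (Fin d) → ℝ) (y : EuclideanSpace ℝ (Fin d)) : ℝ :=
  ∑ i, fderiv ℝ (fun z => fderiv ℝ f z (EuclideanSpace.single i 1)) y (EuclideanSpace.single i 1)

/-- `F` is a stationary random field on `ℝ^d` with smooth samples, `ΔF + F = 0` and `E F(0)² < ∞`.
Stationary means: the shifted field has the same law, in the product of copies of `ℝ` indexed by
the points of `ℝ^d`. -/
structure IsStationaryWave {d : ℕ} {S : Type*} [MeasurableSpace S] (P : Measure S)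
    (F : S → EuclideanSpace ℝ (Fin d) → ℝ) : Prop where
  prob : IsProbabilityMeasure P
  measurable : ∀ y, Measurable fun s => F s y
  smooth : ∀ s, ContDiff ℝ ∞ (F s)
  eigen : ∀ s y, laplacian (F s) y + F s y = 0
  stationary : ∀ x : EuclideanSpace ℝ (Fin d),
    P.map (fun s y => F s (y + x)) = P.map (fun s y => F s y)
  moment : Integrable (fun s => F s 0 ^ 2) P

/-- the law of the random variable `F(0)` -/
def lawAt {d : ℕ} {S : Type*} [MeasurableSpace S] (P : Measure S)
    (F : S → EuclideanSpace ℝ (Fin d) → ℝ) : Measure ℝ := P.map (fun s => F s 0)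

/-- the values beyond `b`, seen from zero: `t ≥ b` if `b > 0`, and `t ≤ b` if `b < 0` -/
def Beyond (b : ℝ) : Set ℝ := {t | b ∈ Set.uIcc 0 t}

/-- **The law of a stationary wave at a point.** -/
theorem result {d : ℕ} {S : Type*} [MeasurableSpace S] (P : Measure S)
    (F : S → EuclideanSpace ℝ (Fin d) → ℝ) (hF : IsStationaryWave P F) :
    ∫ s, F s 0 ∂P = 0 ∧
    (∀ (b : ℝ) (A : Set ℝ), MeasurableSet A → A ⊆ Set.uIoo 0 b →
      (volume A).toReal * (|b| * (lawAt P F (Beyond b)).toReal) ^ 3 ≤
        9 * (∫ s, F s 0 ^ 2 ∂P) ^ 2 * (lawAt P F A).toReal) ∧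
    (lawAt P F {0} = 1 ∨ ∃ J : Set ℝ, IsOpen J ∧ J.OrdConnected ∧ (0 : ℝ) ∈ J ∧
      (lawAt P F).restrict {0}ᶜ ≪ volume.restrict J ∧
        volume.restrict J ≪ (lawAt P F).restrict {0}ᶜ) := by
  have := hF.prob
  obtain ⟨h1, h2, h3⟩ := Pool.Agent.Y139.SW.fin2 (P := P) hF.measurable hF.smooth hF.eigen
    hF.stationary hF.moment
  exact ⟨h1, fun b A _ hA => h2 b A hA, h3⟩

end

end Pool.Agent.Results.MP_4fa179_mp.StationaryWaves
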